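import Mathlib
import Pool.Agent.W482.IP.Stm

/-!
IP-GROW: a bound for the local length of a feasible direction.
-/

set_option autoImplicit false

namespace Pool.Agent.W933.IP

open Pool.Agent.W482.IP Set

theorem mono_aux (F F' : ℝ → ℝ) (a b : ℝ) (hab : a ≤ b)
    (hd : ∀ t ∈ Icc a b, HasDerivAt F (F' t) t) (h0 : ∀ t ∈ Icc a b, 0 ≤ F' t) : F a ≤ F b := by
  have h := monotoneOn_of_deriv_nonneg (f := F) (convex_Icc a b)
    (fun t ht => (hd t ht).continuousAt.continuousWithinAt)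
    (fun t ht => (hd t (interior_subset ht)).differentiableAt.differentiableWithinAt)
    (fun t ht => by
      rw [(hd t (interior_subset ht)).deriv]
      exact h0 t (interior_subset ht))
  exact h (left_mem_Icc.2 hab) (right_mem_Icc.2 hab) hab

theorem grow (h : LIP) : GROW := by
  intro f g g' ν θ hν hθ0 hθ1 hall hf0
  set ρ := √(g 0) with hρ
  have hg0 : 0 < g 0 := (hall 0 (by simp)).1
  have hρ0 : 0 < ρ := Real.sqrt_pos.2 hg0
  have hθ' : 0 < 1 - θ := by linarith
  -- lower bound for `g`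
  have hg : ∀ t ∈ Icc (0 : ℝ) 1, ρ ^ 2 / (1 + ρ * t) ^ 2 ≤ g t := by
    intro t ht
    have h1 := h g g' 0 t ht.1 (fun τ hτ => by
      obtain ⟨k1, _, k3, k4, _⟩ := hall τ ⟨hτ.1, hτ.2.trans ht.2⟩
      exact ⟨k1, k3, k4⟩)
    have h2 := (abs_le.1 h1).2
    have hgt : 0 < g t := (hall t ht).1
    have hs : 0 < √(g t) := Real.sqrt_pos.2 hgt
    have h1t : 0 < 1 + ρ * t := by have := ht.1; positivity
    have h3 : 1 / √(g t) ≤ (1 + ρ * t) / ρ := by
      have : (1 + ρ * t) / ρ = 1 / ρ + t := by field_simp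
      rw [this]
      linarith
    have h4 : ρ / (1 + ρ * t) ≤ √(g t) := by
      rw [div_le_div_iff₀ hs hρ0] at h3
      rw [div_le_iff₀ h1t]
      linarith
    have h5 : (ρ / (1 + ρ * t)) ^ 2 ≤ √(g t) ^ 2 := pow_le_pow_left₀ (by positivity) h4 2
    rw [Real.sq_sqrt hgt.le, div_pow] at h5
    exact h5
  -- lower bound for `f (1/2)`
  have hlow : ρ * (ρ / (2 + ρ) - θ) ≤ f (1 / 2) := by
    have hm := mono_aux (fun t => f t + ρ * (1 + ρ * t)⁻¹)
      (fun t => g t + ρ * (-(ρ) / (1 + ρ * t) ^ 2)) 0 (1 / 2) (by norm_num) (by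
        intro t ht
        have ht' : t ∈ Icc (0 : ℝ) 1 := ⟨ht.1, ht.2.trans (by norm_num)⟩
        have h1t : (1 + ρ * t) ≠ 0 := by have := ht.1; positivity
        have hlin : HasDerivAt (fun t : ℝ => 1 + ρ * t) ρ t := by
          have := ((hasDerivAt_id t).const_mul ρ).const_add 1
          simpa using this
        exact (hall t ht').2.1.add ((hlin.inv h1t).const_mul ρ)) (by
        intro t ht
        have ht' : t ∈ Icc (0 : ℝ) 1 := ⟨ht.1, ht.2.trans (by norm_num)⟩
        have h1 := hg t ht'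
        have h2 : ρ * (-(ρ) / (1 + ρ * t) ^ 2) = -(ρ ^ 2 / (1 + ρ * t) ^ 2) := by ring
        rw [h2]
        linarith)
    simp only [mul_zero, add_zero, inv_one, mul_one] at hm
    have h1 : ρ * (1 + ρ * (1 / 2))⁻¹ = ρ - ρ * (ρ / (2 + ρ)) := by
      have : (2 + ρ) ≠ 0 := by positivity
      have : (1 + ρ * (1 / 2)) ≠ 0 := by positivity
      field_simp
      ring
    rw [h1] at hm
    nlinarith
  -- upper bound for `f (1/2)`
  have hup : f (1 / 2) ≤ 2 * ν := by
    rcases le_or_gt (f (1 / 2)) 0 with hn | hp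
    · linarith
    have hinc : ∀ t ∈ Icc (1 / 2 : ℝ) 1, f (1 / 2) ≤ f t := by
      intro t ht
      apply mono_aux f g (1 / 2) t ht.1
      · intro τ hτ
        exact (hall τ ⟨by linarith [hτ.1], hτ.2.trans ht.2⟩).2.1
      · intro τ hτ
        exact (hall τ ⟨by linarith [hτ.1], hτ.2.trans ht.2⟩).1.le
    have hν0 : 0 < ν := by
      obtain ⟨k1, _, _, _, k5⟩ := hall (1 / 2) ⟨by norm_num, by norm_num⟩
      by_contra hcon
      have : ν = 0 := le_antisymm (not_lt.1 hcon) hν
      rw [this, zero_mul] at k5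
      nlinarith
    have hm := mono_aux (fun t => -((f t)⁻¹ + t / ν)) (fun t => -(-(g t) / f t ^ 2 + 1 / ν))
      (1 / 2) 1 (by norm_num) (by
        intro t ht
        have ht' : t ∈ Icc (0 : ℝ) 1 := ⟨by linarith [ht.1], ht.2⟩
        have hft : f t ≠ 0 := (lt_of_lt_of_le hp (hinc t ht)).ne'
        exact (((hall t ht').2.1.inv hft).add ((hasDerivAt_id t).div_const ν)).neg) (by
        intro t ht
        have ht' : t ∈ Icc (0 : ℝ) 1 := ⟨by linarith [ht.1], ht.2⟩
        have hft : 0 < f t := lt_of_lt_of_le hp (hinc t ht)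
        have h1 := (hall t ht').2.2.2.2
        have h2 : 1 / ν ≤ g t / f t ^ 2 := by
          rw [div_le_div_iff₀ hν0 (by positivity)]
          linarith
        have h3 : -(g t) / f t ^ 2 = -(g t / f t ^ 2) := by ring
        rw [h3]
        linarith)
    have hf1 : 0 < f 1 := lt_of_lt_of_le hp (hinc 1 ⟨by norm_num, le_rfl⟩)
    have h1 : 0 < (f 1)⁻¹ := inv_pos.2 hf1
    have h2 : 1 / (2 * ν) < (f (1 / 2))⁻¹ := by
      have h3 : 1 / ν = (1 / 2) / ν + 1 / (2 * ν) := by field_simp; norm_num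
      linarith
    rw [← one_div, div_lt_div_iff₀ (by positivity) hp] at h2
    linarith
  -- conclusion
  by_contra hcon
  push Not at hcon
  rw [div_lt_iff₀ hθ'] at hcon
  have h1 : 2 / (2 + ρ) < (1 - θ) / 2 := by
    rw [div_lt_div_iff₀ (by positivity) (by norm_num)]
    nlinarith
  have h2 : ρ / (2 + ρ) = 1 - 2 / (2 + ρ) := by
    have : (2 + ρ) ≠ 0 := by positivity
    field_simp
    ring
  have h3 : (1 - θ) / 2 < ρ / (2 + ρ) - θ := by rw [h2]; linarith
  have h4 : ρ * ((1 - θ) / 2) < ρ * (ρ / (2 + ρ) - θ) := mul_lt_mul_of_pos_left h3 hρ0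
  nlinarith

end Pool.Agent.W933.IP
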